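import Pool.Agent.Run7.h991.MU.Iface

/-!
Project MU, piece AFUN: the exponent function.
-/

set_option autoImplicit false

namespace H991.MU

theorem afun_scale {F : ℂ × ℂ → ℂ} {x y a s : ℝ} (hs : 0 < s) (h : Adm F x y a) :
    Adm F (s * x) (s * y) (s * a) := by
  intro t ht β γ
  have h1 := h (t * s) (mul_pos ht hs) β γ
  have e1 : t * s * x = t * (s * x) := by ring
  have e2 : t * s * y = t * (s * y) := by ring
  have e3 : a * (t * s) = s * a * t := by ring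
  rw [e1, e2, e3] at h1
  exact h1

theorem t_AFUN (hNZ : S_NZ) (hSUP : S_SUP) : S_AFUN := by
  intro F hF hne
  have h0 : ∀ x y : ℝ, 0 < x → 0 < y → Adm F x y 0 := by
    intro x y hx hy t ht β γ
    have h1 := hF.2 ((⟨t * x, β⟩ : ℂ), (⟨t * y, γ⟩ : ℂ)) ⟨mul_pos ht hx, mul_pos ht hy⟩
    rw [zero_mul, neg_zero, Real.exp_zero]
    exact h1
  have hbd : ∀ x y : ℝ, 0 < x → 0 < y → BddAbove {a | Adm F x y a} := by
    intro x y hx hy
    obtain ⟨β, γ, hβ⟩ := hNZ F hF hne x y hx hy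
    refine ⟨-Real.log ‖F ((⟨x, β⟩ : ℂ), (⟨y, γ⟩ : ℂ))‖, ?_⟩
    intro a ha
    have h1 := ha 1 one_pos β γ
    rw [one_mul, one_mul, mul_one] at h1
    have h2 := Real.log_le_log (norm_pos_iff.mpr hβ) h1
    rw [Real.log_exp] at h2
    linarith
  have hsup : ∀ x y : ℝ, 0 < x → 0 < y → Adm F x y (sSup {a | Adm F x y a}) := by
    intro x y hx hy t ht β γ
    by_cases hz : F ((⟨t * x, β⟩ : ℂ), (⟨t * y, γ⟩ : ℂ)) = 0
    · rw [hz, norm_zero]
      exact (Real.exp_pos _).le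
    · have hpos := norm_pos_iff.mpr hz
      have h1 : sSup {a | Adm F x y a} ≤
          -Real.log ‖F ((⟨t * x, β⟩ : ℂ), (⟨t * y, γ⟩ : ℂ))‖ / t := by
        refine csSup_le ⟨0, h0 x y hx hy⟩ ?_
        intro a ha
        have h2 := Real.log_le_log hpos (ha t ht β γ)
        rw [Real.log_exp] at h2
        rw [le_div_iff₀ ht]
        linarith
      rw [le_div_iff₀ ht] at h1
      rw [← Real.log_le_iff_le_exp hpos]
      linarith
  have hle : ∀ x y : ℝ, 0 < x → 0 < y → ∀ a, Adm F x y a → a ≤ sSup {a | Adm F x y a} :=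
    fun x y hx hy a ha => le_csSup (hbd x y hx hy) ha
  refine ⟨fun x y => sSup {a | Adm F x y a}, fun x y hx hy => ⟨hsup x y hx hy, hle x y hx hy⟩,
    ?_, ?_, ?_⟩
  · intro x y hx hy
    exact hle x y hx hy 0 (h0 x y hx hy)
  · intro t x y ht hx hy
    apply le_antisymm
    · have h1 := afun_scale (inv_pos.mpr ht) (hsup (t * x) (t * y) (mul_pos ht hx) (mul_pos ht hy))
      rw [inv_mul_cancel_left₀ ht.ne', inv_mul_cancel_left₀ ht.ne'] at h1
      have h2 := hle x y hx hy _ h1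
      rw [inv_mul_le_iff₀ ht] at h2
      exact h2
    · exact hle _ _ (mul_pos ht hx) (mul_pos ht hy) _ (afun_scale ht (hsup x y hx hy))
  · intro x₁ y₁ x₂ y₂ hx₁ hy₁ hx₂ hy₂
    exact hle _ _ (add_pos hx₁ hx₂) (add_pos hy₁ hy₂) _
      (hSUP F hF x₁ y₁ x₂ y₂ _ _ hx₁ hy₁ hx₂ hy₂ (hsup x₁ y₁ hx₁ hy₁) (hsup x₂ y₂ hx₂ hy₂))

end H991.MU
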